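import Mathlib

/-!
# R_Kt: interpolation of the polynomials which are heard

`interp S D B` is the first nonzero coefficient (a polynomial in `x` of degree `< D`) of a nonzero
`Q(x, y)`, of degree `< B` in `y`, vanishing on the set of points `S`. If `Y ≠ 0` has degree `< D'` and
its graph meets `S` in at least `D + D' * B` points, then `interp S D B` vanishes at every zero of `Y`.
-/

set_option autoImplicit false

open Polynomial

namespace Pool.Agent.Lib.MP_33f9c4_lc.RK

variable {F : Type} [Field F]

/-- a nonzero polynomial in two variables vanishing on `S` -/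
theorem interp_exists (S : Finset (F × F)) (D B : ℕ) (h : S.card < D * B) :
    ∃ Q : F[X][X], Q ≠ 0 ∧ Q.natDegree < B ∧ (∀ b, (Q.coeff b).degree < D) ∧
      ∀ s ∈ S, (Q.eval (C s.2)).eval s.1 = 0 := by
  classical
  -- coefficients
  let poly : (Fin B → Fin D → F) → F[X][X] := fun v =>
    ∑ b : Fin B, Polynomial.monomial (b : ℕ) (∑ a : Fin D, Polynomial.monomial (a : ℕ) (v b a))
  let ev : (Fin B → Fin D → F) →ₗ[F] ({s // s ∈ S} → F) :=
    { toFun := fun v s => ∑ b : Fin B, ∑ a : Fin D, v b a * (s.1.1 ^ (a : ℕ) * s.1.2 ^ (b : ℕ))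
      map_add' := by
        intro v w
        funext s
        simp only [Pi.add_apply, add_mul, Finset.sum_add_distrib]
      map_smul' := by
        intro c v
        funext s
        simp only [Pi.smul_apply, smul_eq_mul, RingHom.id_apply, Finset.mul_sum, mul_assoc] }
  have hker : ∃ v : Fin B → Fin D → F, v ≠ 0 ∧ ev v = 0 := by
    have hlt : Module.finrank F ({s // s ∈ S} → F) < Module.finrank F (Fin B → Fin D → F) := by
      rw [Module.finrank_fintype_fun_eq_card, Fintype.card_coe]
      have : Module.finrank F (Fin B → Fin D → F) = D * B := by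
        rw [Module.finrank_pi_fintype]
        simp [mul_comm]
      rw [this]
      exact h
    have hni : ¬ Function.Injective ev := by
      intro hi
      have := LinearMap.finrank_le_finrank_of_injective hi
      omega
    rw [← LinearMap.ker_eq_bot, Submodule.eq_bot_iff] at hni
    push Not at hni
    obtain ⟨v, hv, hv0⟩ := hni
    exact ⟨v, hv0, LinearMap.mem_ker.1 hv⟩
  obtain ⟨v, hv0, hev⟩ := hker
  have hcoeff : ∀ b : ℕ, (poly v).coeff b = if hb : b < B then
      ∑ a : Fin D, Polynomial.monomial (a : ℕ) (v ⟨b, hb⟩ a) else 0 := by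
    intro b
    show (∑ b : Fin B, Polynomial.monomial (b : ℕ) (∑ a : Fin D, Polynomial.monomial (a : ℕ) (v b a))).coeff b = _
    rw [Polynomial.finsetSum_coeff]
    simp only [Polynomial.coeff_monomial]
    split_ifs with hb
    · rw [Finset.sum_eq_single (⟨b, hb⟩ : Fin B)]
      · simp
      · intro c _ hc
        rw [if_neg]
        intro h1
        exact hc (Fin.ext h1)
      · intro h1; exact absurd (Finset.mem_univ _) h1
    · refine Finset.sum_eq_zero fun c _ => ?_
      rw [if_neg]
      intro h1
      exact hb (h1 ▸ c.2)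
  have hcoeff2 : ∀ (b : Fin B) (a : Fin D), ((poly v).coeff b).coeff a = v b a := by
    intro b a
    rw [hcoeff, dif_pos b.2, Polynomial.finsetSum_coeff]
    simp only [Polynomial.coeff_monomial]
    rw [Finset.sum_eq_single a]
    · simp
    · intro c _ hc
      rw [if_neg]
      intro h1
      exact hc (Fin.ext h1)
    · intro h1; exact absurd (Finset.mem_univ _) h1
  refine ⟨poly v, ?_, ?_, ?_, ?_⟩
  · intro h0
    apply hv0
    funext b a
    rw [← hcoeff2 b a, h0]
    rfl
  · have hB : 0 < B := by
      rcases Nat.eq_zero_or_pos B with h0 | h0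
      · rw [h0, mul_zero] at h; omega
      · exact h0
    rw [Nat.lt_iff_le_pred hB, Polynomial.natDegree_le_iff_coeff_eq_zero]
    intro N hN
    rw [hcoeff, dif_neg (by omega)]
  · intro b
    rw [hcoeff]
    split_ifs with hb
    · rw [Polynomial.degree_lt_iff_coeff_zero]
      intro m hm
      rw [Polynomial.finsetSum_coeff]
      refine Finset.sum_eq_zero fun c _ => ?_
      rw [Polynomial.coeff_monomial, if_neg]
      intro h1
      have := c.2
      omega
    · rw [Polynomial.degree_zero]
      exact WithBot.bot_lt_coe D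
  · intro s hs
    have h1 := congrFun hev ⟨s, hs⟩
    have h2 : ev v ⟨s, hs⟩ = ∑ b : Fin B, ∑ a : Fin D, v b a * (s.1 ^ (a : ℕ) * s.2 ^ (b : ℕ)) := rfl
    rw [h2] at h1
    show ((∑ b : Fin B, Polynomial.monomial (b : ℕ) (∑ a : Fin D, Polynomial.monomial (a : ℕ) (v b a))).eval
      (C s.2)).eval s.1 = 0
    rw [Polynomial.eval_finsetSum, Polynomial.eval_finsetSum]
    rw [← h1.trans (Pi.zero_apply _)]
    refine Finset.sum_congr rfl fun b _ => ?_
    rw [Polynomial.eval_monomial, Polynomial.eval_mul, Polynomial.eval_finsetSum, Finset.sum_mul,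
      Polynomial.eval_pow, Polynomial.eval_C]
    refine Finset.sum_congr rfl fun a _ => ?_
    rw [Polynomial.eval_monomial]
    ring

open Classical in
/-- the message formed from the points `S` -/
noncomputable def interp (S : Finset (F × F)) (D B : ℕ) : F[X] :=
  if h : S.card < D * B then (Classical.choose (interp_exists S D B h)).trailingCoeff else 1

theorem interp_ne_zero (S : Finset (F × F)) (D B : ℕ) : interp S D B ≠ 0 := by
  rw [interp]
  split_ifs with h
  · rw [Ne, Polynomial.trailingCoeff_eq_zero]
    exact (Classical.choose_spec (interp_exists S D B h)).1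
  · exact one_ne_zero

theorem interp_degree (S : Finset (F × F)) (D B : ℕ) (hD : 0 < D) : (interp S D B).degree < D := by
  rw [interp]
  split_ifs with h
  · exact (Classical.choose_spec (interp_exists S D B h)).2.2.1 _
  · rw [Polynomial.degree_one]
    exact_mod_cast hD

open Classical in
/-- LEMMA V -/
theorem interp_zero (S : Finset (F × F)) (D B D' : ℕ) (h : S.card < D * B) (Y : F[X]) (hY : Y ≠ 0)
    (hYd : Y.natDegree < D') (A : Finset F) (hA : ∀ a ∈ A, (a, Y.eval a) ∈ S)
    (hcard : D + D' * B ≤ A.card) (x : F) (hx : Y.eval x = 0) : (interp S D B).eval x = 0 := by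
  rw [interp, dif_pos h]
  obtain ⟨hQ0, hQB, hQD, hQS⟩ := Classical.choose_spec (interp_exists S D B h)
  set Q := Classical.choose (interp_exists S D B h) with hQ
  have hD : 0 < D := by
    rcases Nat.eq_zero_or_pos D with h0 | h0
    · rw [h0, zero_mul] at h; omega
    · exact h0
  -- Q(x, Y(x)) = 0
  have h1 : Q.eval Y = 0 := by
    refine Polynomial.eq_zero_of_natDegree_lt_card_of_eval_eq_zero' (Q.eval Y) A ?_ ?_
    · intro a ha
      have h2 := hQS _ (hA a ha)
      have h3 : (Q.eval Y).eval a = (Q.eval (C (Y.eval a))).eval a := by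
        rw [Polynomial.eval_eq_sum_range (p := Q), Polynomial.eval_eq_sum_range (p := Q),
          Polynomial.eval_finsetSum, Polynomial.eval_finsetSum]
        refine Finset.sum_congr rfl fun i _ => ?_
        rw [Polynomial.eval_mul, Polynomial.eval_mul, Polynomial.eval_pow, Polynomial.eval_pow,
          Polynomial.eval_C]
      rw [h3]
      exact h2
    · refine lt_of_lt_of_le ?_ hcard
      rw [Polynomial.eval_eq_sum_range]
      refine lt_of_le_of_lt (Polynomial.natDegree_sum_le_of_forall_le (n := D - 1 + D' * B) _ _ ?_) (by omega)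
      intro i hi
      rw [Finset.mem_range] at hi
      refine Polynomial.natDegree_mul_le.trans (Nat.add_le_add ?_ ?_)
      · have := hQD i
        rcases eq_or_ne (Q.coeff i) 0 with h0 | h0
        · rw [h0]; simp
        · rw [Polynomial.degree_eq_natDegree h0] at this
          have h4 : (Q.coeff i).natDegree < D := by exact_mod_cast this
          omega
      · refine Polynomial.natDegree_pow_le.trans ?_
        rw [mul_comm]
        exact Nat.mul_le_mul hYd.le (by omega)
  -- divide by a power of y
  obtain ⟨R, hR⟩ := (Polynomial.X_pow_dvd_iff (f := Q) (n := Q.natTrailingDegree)).2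
    (fun d hd => Polynomial.coeff_eq_zero_of_lt_natTrailingDegree hd)
  have hR0 : Q.trailingCoeff = R.coeff 0 := by
    rw [Polynomial.trailingCoeff]
    conv_lhs => rw [hR]
    have := Polynomial.coeff_X_pow_mul R Q.natTrailingDegree 0
    rw [zero_add] at this
    convert this using 2
    rw [← hR]
  have h5 : R.eval Y = 0 := by
    have h6 : Q.eval Y = Y ^ Q.natTrailingDegree * R.eval Y := by
      conv_lhs => rw [hR]
      rw [Polynomial.eval_mul, Polynomial.eval_pow, Polynomial.eval_X]
    rw [h1] at h6
    rcases mul_eq_zero.1 h6.symm with h7 | h7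
    · exact absurd h7 (pow_ne_zero _ hY)
    · exact h7
  rw [hR0]
  have h8 : (R.eval Y).eval x = (R.coeff 0).eval x := by
    rw [Polynomial.eval_eq_sum_range (p := R), Polynomial.eval_finsetSum, Finset.sum_eq_single 0]
    · simp
    · intro i _ hi
      rw [Polynomial.eval_mul, Polynomial.eval_pow, hx, zero_pow hi, mul_zero]
    · intro h9
      exact absurd (Finset.mem_range.2 (Nat.succ_pos _)) h9
  rw [← h8, h5, Polynomial.eval_zero]

end Pool.Agent.Lib.MP_33f9c4_lc.RK
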