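import Mathlib

/-!
# R_Kt: the size of the list (LEMMA L)

`Ω` finite, `a : Ω → ZMod p`, `x : Ω → (Fin t → ZMod p)` nearly uniform. `hsh v z = ∑ v_i z^i`.
If every `z ∈ Z` carries at least `64 * 2^(-s)` times the mass of `{a = b}` and at least the absolute amount `a*`,
then `Z` has fewer than `2^s t` elements.
-/

set_option autoImplicit false

open Finset

namespace Pool.Agent.Lib.MP_33f9c4_lc.RK

/-- the hash value -/
def hsh {p t : ℕ} (v : Fin t → ZMod p) (z : ZMod p) : ZMod p := ∑ i : Fin t, v i * z ^ (i : ℕ)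

/-- `t` values of the hash determine the coefficients -/
theorem hsh_inj {p t : ℕ} [Fact p.Prime] (T : Finset (ZMod p)) (hT : T.card = t)
    (v w : Fin t → ZMod p) (h : ∀ z ∈ T, hsh v z = hsh w z) : v = w := by
  classical
  set P : Polynomial (ZMod p) := ∑ i : Fin t, Polynomial.monomial (i : ℕ) (v i - w i) with hP
  have hcoeff : ∀ i : Fin t, P.coeff i = v i - w i := by
    intro i
    rw [hP, Polynomial.finsetSum_coeff, Finset.sum_eq_single i]
    · simp
    · intro j _ hj
      rw [Polynomial.coeff_monomial, if_neg]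
      intro h1
      exact hj (Fin.ext h1)
    · intro h1; exact absurd (mem_univ _) h1
  have heval : ∀ z, P.eval z = hsh v z - hsh w z := by
    intro z
    rw [hP, Polynomial.eval_finsetSum, hsh, hsh, ← Finset.sum_sub_distrib]
    refine Finset.sum_congr rfl fun i _ => ?_
    rw [Polynomial.eval_monomial, sub_mul]
  have hP0 : P = 0 := by
    rcases Nat.eq_zero_or_pos t with h0 | h0
    · rw [hP]
      subst h0
      simp
    refine Polynomial.eq_zero_of_natDegree_lt_card_of_eval_eq_zero' P T ?_ ?_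
    · intro z hz
      rw [heval, h z hz, sub_self]
    · rw [hT]
      refine lt_of_le_of_lt (Polynomial.natDegree_sum_le_of_forall_le (n := t - 1) _ _ ?_) (by omega)
      intro i _
      refine (Polynomial.natDegree_monomial_le _).trans ?_
      have := i.2
      omega
  funext i
  have h1 := hcoeff i
  rw [hP0, Polynomial.coeff_zero] at h1
  exact (sub_eq_zero.1 h1.symm)

private lemma ls_small {p : ℕ} [Fact p.Prime] (c : ℕ) :
    (univ.filter (fun y : ZMod p => y.val < c)).card ≤ c := by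
  classical
  have h1 : (univ.filter (fun y : ZMod p => y.val < c)).card ≤ (range c).card := by
    refine Finset.card_le_card_of_injOn (fun y => y.val) ?_ ?_
    · intro y hy
      rw [mem_coe, mem_filter] at hy
      rw [mem_coe, mem_range]
      exact hy.2
    · intro y _ z _ h
      exact ZMod.val_injective p h
  rwa [card_range] at h1

/-- the number of coefficient vectors with small hash values at `t` points -/
theorem hsh_count {p t : ℕ} [Fact p.Prime] (T : Finset (ZMod p)) (hT : T.card = t) (c : ℕ) :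
    (univ.filter (fun v : Fin t → ZMod p => ∀ z ∈ T, (hsh v z).val < c)).card ≤ c ^ t := by
  classical
  have h1 : (univ.filter (fun v : Fin t → ZMod p => ∀ z ∈ T, (hsh v z).val < c)).card ≤
      (Fintype.piFinset (fun _ : {z // z ∈ T} => univ.filter (fun y : ZMod p => y.val < c))).card := by
    refine Finset.card_le_card_of_injOn (fun v z => hsh v z.1) ?_ ?_
    · intro v hv
      rw [mem_coe, mem_filter] at hv
      rw [mem_coe, Fintype.mem_piFinset]
      intro z
      rw [mem_filter]
      exact ⟨mem_univ _, hv.2 z.1 z.2⟩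
    · intro v _ w _ h
      refine hsh_inj T hT v w fun z hz => ?_
      exact congrFun h ⟨z, hz⟩
  refine h1.trans ?_
  rw [Fintype.card_piFinset, Finset.prod_const, Finset.card_univ, Fintype.card_coe, hT]
  exact Nat.pow_le_pow_left (ls_small c) t

private lemma ls_choose (t N : ℕ) (ht : 0 < t) :
    (N : ℝ) * (Nat.choose (8 * t) t) ≤ 8 * t * (Nat.choose (8 * t) t) + 8 * t * (Nat.choose N t) := by
  have hC : (0 : ℝ) < Nat.choose (8 * t) t := by exact_mod_cast Nat.choose_pos (by omega)
  rcases le_total N (8 * t) with h | h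
  · have h1 : (N : ℝ) ≤ 8 * t := by exact_mod_cast h
    nlinarith [(Nat.cast_nonneg (Nat.choose N t) : (0 : ℝ) ≤ _), (Nat.cast_nonneg t : (0 : ℝ) ≤ t)]
  · -- choose N t / choose (8t) t >= N/(8t)
    have key : ∀ M : ℕ, 8 * t ≤ M → M * Nat.choose (8 * t) t ≤ 8 * t * Nat.choose M t := by
      intro M hM
      induction M, hM using Nat.le_induction with
      | base => exact le_rfl
      | succ M hM ih =>
        -- (M+1) choose t * (M+1-t) = (M+1) * choose M t
        have h1 : Nat.choose (M + 1) t * (M + 1 - t) = (M + 1) * Nat.choose M t := by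
          have h2 := Nat.choose_mul_succ_eq M t
          rw [mul_comm] at h2
          rw [← h2]
        have hMt : 0 < M + 1 - t := by omega
        have hM0 : 0 < M := by omega
        -- multiply
        have h3 : (M + 1) * Nat.choose (8 * t) t * (M * (M + 1 - t)) ≤
            8 * t * Nat.choose (M + 1) t * (M * (M + 1 - t)) := by
          have e1 : 8 * t * Nat.choose (M + 1) t * (M * (M + 1 - t)) =
              8 * t * M * ((M + 1) * Nat.choose M t) := by
            rw [← h1]; ring
          have e2 : (M + 1) * Nat.choose (8 * t) t * (M * (M + 1 - t)) =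
              (M + 1) * (M + 1 - t) * (M * Nat.choose (8 * t) t) := by ring
          rw [e1, e2]
          calc (M + 1) * (M + 1 - t) * (M * Nat.choose (8 * t) t)
              ≤ (M + 1) * (M + 1 - t) * (8 * t * Nat.choose M t) := Nat.mul_le_mul_left _ ih
            _ ≤ (M + 1) * M * (8 * t * Nat.choose M t) := by
                refine Nat.mul_le_mul_right _ (Nat.mul_le_mul_left _ ?_)
                omega
            _ = 8 * t * M * ((M + 1) * Nat.choose M t) := by ring
        exact Nat.le_of_mul_le_mul_right h3 (Nat.mul_pos hM0 hMt)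
    have h2 := key N h
    have h3 : ((N * Nat.choose (8 * t) t : ℕ) : ℝ) ≤ ((8 * t * Nat.choose N t : ℕ) : ℝ) := by
      exact_mod_cast h2
    push_cast at h3
    nlinarith [(Nat.cast_nonneg t : (0 : ℝ) ≤ t)]

private lemma ls_choose_le (t L : ℕ) (ht : 0 < t) :
    (Nat.choose L t : ℝ) * (7 * t) ^ t ≤ L ^ t * Nat.choose (8 * t) t := by
  have h1 : Nat.choose L t * t.factorial ≤ L ^ t := by
    rw [mul_comm, ← Nat.descFactorial_eq_factorial_mul_choose]
    exact Nat.descFactorial_le_pow L t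
  have h2 : (7 * t) ^ t ≤ Nat.choose (8 * t) t * t.factorial := by
    rw [mul_comm (Nat.choose (8 * t) t), ← Nat.descFactorial_eq_factorial_mul_choose]
    calc (7 * t) ^ t ≤ (8 * t + 1 - t) ^ t := Nat.pow_le_pow_left (by omega) t
      _ ≤ (8 * t).descFactorial t := Nat.pow_sub_le_descFactorial (8 * t) t
  have h3 : Nat.choose L t * (7 * t) ^ t * t.factorial ≤ L ^ t * Nat.choose (8 * t) t * t.factorial := by
    calc Nat.choose L t * (7 * t) ^ t * t.factorial
        = (Nat.choose L t * t.factorial) * (7 * t) ^ t := by ring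
      _ ≤ L ^ t * (Nat.choose (8 * t) t * t.factorial) := Nat.mul_le_mul h1 h2
      _ = L ^ t * Nat.choose (8 * t) t * t.factorial := by ring
  have h4 := Nat.le_of_mul_le_mul_right h3 t.factorial_pos
  exact_mod_cast h4

open Classical in
/-- LEMMA L -/
theorem list_size {Ω : Type} [Fintype Ω] {p : ℕ} [Fact p.Prime] (t s c : ℕ) (ht : 0 < t)
    (a : Ω → ZMod p) (x : Ω → Fin t → ZMod p)
    (hun : ∀ (b : ZMod p) (v : Fin t → ZMod p),
      (univ.filter (fun ω : Ω => a ω = b ∧ x ω = v)).card * p ^ (t + 1) ≤ 2 * Fintype.card Ω)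
    (hc : c * 2 ^ s ≤ 2 * p) (b : ZMod p) (W : Ω → ℝ) (hW0 : ∀ ω, 0 ≤ W ω) (hW1 : ∀ ω, W ω ≤ 1)
    (Z : Finset (ZMod p))
    (h1 : ∀ z ∈ Z, 64 * (∑ ω ∈ univ.filter (fun ω : Ω => a ω = b), W ω) ≤
      2 ^ s * ∑ ω ∈ univ.filter (fun ω : Ω => a ω = b ∧ (hsh (x ω) z).val < c), W ω)
    (h2 : ∀ z ∈ Z, 20 * (Fintype.card Ω : ℝ) * (2 / 7) ^ t < p *
      (2 ^ s * ∑ ω ∈ univ.filter (fun ω : Ω => a ω = b ∧ (hsh (x ω) z).val < c), W ω)) :
    Z.card < 2 ^ s * t := by
  by_contra hcon
  push Not at hcon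
  obtain ⟨Z', hZ', hcard⟩ := Finset.exists_subset_card_eq hcon
  set L := 2 ^ s * t with hL
  have hLpos : 0 < L := by positivity
  have hp0 : (0 : ℝ) < p := by exact_mod_cast (Fact.out : p.Prime).pos
  have ht0 : (0 : ℝ) < t := by exact_mod_cast ht
  set m : ZMod p → ℝ := fun z => ∑ ω ∈ univ.filter (fun ω : Ω => a ω = b ∧ (hsh (x ω) z).val < c), W ω with hm
  set μ : ℝ := ∑ ω ∈ univ.filter (fun ω : Ω => a ω = b), W ω with hμ
  let N : Ω → ℕ := fun ω => (Z'.filter (fun z => (hsh (x ω) z).val < c)).card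
  -- the sum of the masses
  have hsum : ∑ z ∈ Z', m z = ∑ ω ∈ univ.filter (fun ω : Ω => a ω = b), W ω * N ω := by
    show ∑ z ∈ Z', ∑ ω ∈ univ.filter (fun ω : Ω => a ω = b ∧ (hsh (x ω) z).val < c), W ω = _
    have e1 : ∀ z ∈ Z', ∑ ω ∈ univ.filter (fun ω : Ω => a ω = b ∧ (hsh (x ω) z).val < c), W ω =
        ∑ ω ∈ univ.filter (fun ω : Ω => a ω = b), if (hsh (x ω) z).val < c then W ω else 0 := by
      intro z _
      rw [← Finset.sum_filter, Finset.filter_filter]
    rw [Finset.sum_congr rfl e1, Finset.sum_comm]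
    refine Finset.sum_congr rfl fun ω _ => ?_
    rw [← Finset.sum_filter, Finset.sum_const, nsmul_eq_mul, mul_comm]
  -- the binomial sum
  have hbin : ∑ ω ∈ univ.filter (fun ω : Ω => a ω = b), (Nat.choose (N ω) t : ℝ) ≤
      Nat.choose L t * (2 * Fintype.card Ω * c ^ t / p ^ (t + 1)) := by
    have e1 : ∀ ω, Nat.choose (N ω) t =
        ((Z'.powersetCard t).filter (fun T => ∀ z ∈ T, (hsh (x ω) z).val < c)).card := by
      intro ω
      show Nat.choose (Z'.filter (fun z => (hsh (x ω) z).val < c)).card t = _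
      rw [← Finset.card_powersetCard]
      congr 1
      ext T
      rw [mem_filter, mem_powersetCard, mem_powersetCard]
      constructor
      · rintro ⟨h3, h4⟩
        refine ⟨⟨fun z hz => (mem_filter.1 (h3 hz)).1, h4⟩, fun z hz => (mem_filter.1 (h3 hz)).2⟩
      · rintro ⟨⟨h3, h4⟩, h5⟩
        exact ⟨fun z hz => mem_filter.2 ⟨h3 hz, h5 z hz⟩, h4⟩
    have e2 : ∑ ω ∈ univ.filter (fun ω : Ω => a ω = b), (Nat.choose (N ω) t : ℝ) =
        ∑ T ∈ Z'.powersetCard t, ((univ.filter (fun ω : Ω => a ω = b ∧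
          ∀ z ∈ T, (hsh (x ω) z).val < c)).card : ℝ) := by
      have e3 : ∀ ω ∈ univ.filter (fun ω : Ω => a ω = b), (Nat.choose (N ω) t : ℝ) =
          ∑ T ∈ Z'.powersetCard t, if (∀ z ∈ T, (hsh (x ω) z).val < c) then (1 : ℝ) else 0 := by
        intro ω _
        rw [e1, ← Finset.sum_filter, Finset.sum_const, nsmul_eq_mul, mul_one]
      rw [Finset.sum_congr rfl e3, Finset.sum_comm]
      refine Finset.sum_congr rfl fun T _ => ?_
      rw [← Finset.sum_filter, Finset.filter_filter, Finset.sum_const, nsmul_eq_mul, mul_one]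
    rw [e2]
    have e4 : ∀ T ∈ Z'.powersetCard t, ((univ.filter (fun ω : Ω => a ω = b ∧
          ∀ z ∈ T, (hsh (x ω) z).val < c)).card : ℝ) ≤ 2 * Fintype.card Ω * c ^ t / p ^ (t + 1) := by
      intro T hT
      rw [mem_powersetCard] at hT
      rw [le_div_iff₀ (by positivity)]
      have e5 : (univ.filter (fun ω : Ω => a ω = b ∧ ∀ z ∈ T, (hsh (x ω) z).val < c)).card ≤
          ∑ v ∈ univ.filter (fun v : Fin t → ZMod p => ∀ z ∈ T, (hsh v z).val < c),
            (univ.filter (fun ω : Ω => a ω = b ∧ x ω = v)).card := by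
        rw [Finset.card_eq_sum_card_fiberwise (f := fun ω => x ω)
          (t := univ.filter (fun v : Fin t → ZMod p => ∀ z ∈ T, (hsh v z).val < c))]
        · refine Finset.sum_le_sum fun v _ => Finset.card_le_card fun ω hω => ?_
          rw [mem_filter, mem_filter] at hω
          rw [mem_filter]
          exact ⟨mem_univ _, hω.1.2.1, hω.2⟩
        · intro ω hω
          rw [mem_coe, mem_filter] at hω
          rw [mem_coe, mem_filter]
          exact ⟨mem_univ _, hω.2.2⟩
      have e6 : (univ.filter (fun ω : Ω => a ω = b ∧ ∀ z ∈ T, (hsh (x ω) z).val < c)).card * p ^ (t + 1) ≤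
          c ^ t * (2 * Fintype.card Ω) := by
        calc _ ≤ (∑ v ∈ univ.filter (fun v : Fin t → ZMod p => ∀ z ∈ T, (hsh v z).val < c),
            (univ.filter (fun ω : Ω => a ω = b ∧ x ω = v)).card) * p ^ (t + 1) := Nat.mul_le_mul_right _ e5
          _ ≤ ∑ v ∈ univ.filter (fun v : Fin t → ZMod p => ∀ z ∈ T, (hsh v z).val < c),
              (2 * Fintype.card Ω) := by
              rw [Finset.sum_mul]
              exact Finset.sum_le_sum fun v _ => hun b v
          _ ≤ c ^ t * (2 * Fintype.card Ω) := by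
              rw [Finset.sum_const, smul_eq_mul]
              exact Nat.mul_le_mul_right _ (hsh_count T hT.2 c)
      have e7 : (((univ.filter (fun ω : Ω => a ω = b ∧ ∀ z ∈ T, (hsh (x ω) z).val < c)).card * p ^ (t + 1) : ℕ) : ℝ) ≤
          ((c ^ t * (2 * Fintype.card Ω) : ℕ) : ℝ) := by exact_mod_cast e6
      push_cast at e7
      linarith
    refine (Finset.sum_le_sum e4).trans (le_of_eq ?_)
    rw [Finset.sum_const, nsmul_eq_mul, Finset.card_powersetCard, hcard]
  -- the main inequality
  have hC : (0 : ℝ) < Nat.choose (8 * t) t := by exact_mod_cast Nat.choose_pos (by omega)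
  have hmain : ∑ z ∈ Z', m z ≤ 8 * t * μ + 8 * t * (2 * Fintype.card Ω / p * (2 / 7) ^ t) := by
    rw [hsum]
    have e1 : (∑ ω ∈ univ.filter (fun ω : Ω => a ω = b), W ω * N ω) * Nat.choose (8 * t) t ≤
        8 * t * Nat.choose (8 * t) t * μ + 8 * t * ∑ ω ∈ univ.filter (fun ω : Ω => a ω = b), (Nat.choose (N ω) t : ℝ) := by
      rw [Finset.sum_mul, hμ, Finset.mul_sum, Finset.mul_sum, ← Finset.sum_add_distrib]
      refine Finset.sum_le_sum fun ω _ => ?_
      have e2 := ls_choose t (N ω) ht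
      have e3 := mul_le_mul_of_nonneg_left e2 (hW0 ω)
      have e4 : W ω * (8 * t * (Nat.choose (N ω) t : ℝ)) ≤ 1 * (8 * t * (Nat.choose (N ω) t : ℝ)) :=
        mul_le_mul_of_nonneg_right (hW1 ω) (by positivity)
      nlinarith
    have e5 : (Nat.choose L t : ℝ) * (2 * Fintype.card Ω * c ^ t / p ^ (t + 1)) ≤
        Nat.choose (8 * t) t * (2 * Fintype.card Ω / p * (2 / 7) ^ t) := by
      have e6 := ls_choose_le t L ht
      have e7 : (c : ℝ) * L ≤ 2 * p * t := by
        have : c * L ≤ 2 * p * t := by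
          rw [hL, ← mul_assoc]
          exact Nat.mul_le_mul_right t hc
        exact_mod_cast this
      have e8 : ((c : ℝ) * L) ^ t ≤ (2 * p * t) ^ t := pow_le_pow_left₀ (by positivity) e7 t
      have e9 : (Nat.choose L t : ℝ) * c ^ t * (7 * t) ^ t ≤ (2 * p * t) ^ t * Nat.choose (8 * t) t := by
        calc (Nat.choose L t : ℝ) * c ^ t * (7 * t) ^ t = (Nat.choose L t * (7 * t) ^ t) * c ^ t := by ring
          _ ≤ (L ^ t * Nat.choose (8 * t) t) * c ^ t := mul_le_mul_of_nonneg_right e6 (by positivity)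
          _ = (c * L : ℝ) ^ t * Nat.choose (8 * t) t := by rw [mul_pow]; ring
          _ ≤ _ := mul_le_mul_of_nonneg_right e8 hC.le
      have e10 : (2 * p * t : ℝ) ^ t = (2 / 7) ^ t * p ^ t * (7 * t) ^ t := by
        rw [← mul_pow, ← mul_pow]
        congr 1
        ring
      rw [e10] at e9
      have e11 : (Nat.choose L t : ℝ) * c ^ t ≤ (2 / 7) ^ t * p ^ t * Nat.choose (8 * t) t := by
        have h7 : (0 : ℝ) < (7 * t) ^ t := by positivity
        refine le_of_mul_le_mul_right ?_ h7
        linarith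
      rw [pow_succ]
      have e12 : (Nat.choose L t : ℝ) * (2 * Fintype.card Ω * c ^ t / (p ^ t * p)) =
          (Nat.choose L t * c ^ t) * (2 * Fintype.card Ω / (p ^ t * p)) := by ring
      rw [e12]
      refine (mul_le_mul_of_nonneg_right e11 (by positivity)).trans (le_of_eq ?_)
      have hpt : (p : ℝ) ^ t ≠ 0 := by positivity
      field_simp
    have e6 := hbin.trans e5
    have e7 : (∑ ω ∈ univ.filter (fun ω : Ω => a ω = b), W ω * N ω) * Nat.choose (8 * t) t ≤
        (8 * t * μ + 8 * t * (2 * Fintype.card Ω / p * (2 / 7) ^ t)) * Nat.choose (8 * t) t := by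
      have e8 := mul_le_mul_of_nonneg_left e6 (show (0 : ℝ) ≤ 8 * t by positivity)
      nlinarith
    exact le_of_mul_le_mul_right e7 hC
  -- contradiction
  have h3 : ∀ z ∈ Z', 64 * μ ≤ 2 ^ s * m z := fun z hz => h1 z (hZ' hz)
  have h4 : ∀ z ∈ Z', 20 * (Fintype.card Ω : ℝ) * (2 / 7) ^ t < p * (2 ^ s * m z) := fun z hz => h2 z (hZ' hz)
  have hne : Z'.Nonempty := by
    rw [← Finset.card_pos, hcard]; exact hLpos
  have h5 : 64 * μ * t ≤ ∑ z ∈ Z', m z := by
    have e1 := Finset.sum_le_sum h3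
    rw [Finset.sum_const, hcard, nsmul_eq_mul, ← Finset.mul_sum, hL] at e1
    push_cast at e1
    have h2s : (0 : ℝ) < 2 ^ s := by positivity
    have e2 : (2 : ℝ) ^ s * (64 * μ * t) ≤ 2 ^ s * ∑ z ∈ Z', m z := by linarith
    exact le_of_mul_le_mul_left e2 h2s
  have h6 : 20 * (Fintype.card Ω : ℝ) * (2 / 7) ^ t * t < p * ∑ z ∈ Z', m z := by
    have e1 := Finset.sum_lt_sum_of_nonempty hne h4
    rw [Finset.sum_const, hcard, nsmul_eq_mul, ← Finset.mul_sum, ← Finset.mul_sum, hL] at e1
    push_cast at e1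
    have h2s : (0 : ℝ) < 2 ^ s := by positivity
    have e2 : (2 : ℝ) ^ s * (20 * (Fintype.card Ω : ℝ) * (2 / 7) ^ t * t) < 2 ^ s * (p * ∑ z ∈ Z', m z) := by
      linarith
    exact lt_of_mul_lt_mul_left e2 h2s.le
  have h7 : p * ∑ z ∈ Z', m z ≤ p * (8 * t * μ) + 16 * t * Fintype.card Ω * (2 / 7) ^ t := by
    have e1 := mul_le_mul_of_nonneg_left hmain hp0.le
    refine e1.trans (le_of_eq ?_)
    field_simp
    ring
  have h8 : p * (64 * μ * t) ≤ p * ∑ z ∈ Z', m z := mul_le_mul_of_nonneg_left h5 hp0.le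
  have h9 : (0 : ℝ) ≤ (Fintype.card Ω : ℝ) * (2 / 7) ^ t * t := by positivity
  nlinarith

end Pool.Agent.Lib.MP_33f9c4_lc.RK
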