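import Mathlib

/-!
# R_Kt: starvation (LEMMA S)

`Ω` with independent uniform coordinates `c k : Ω → X k`. A value `w` is starved by `Q` if the fibre
of `Q` over `w` has less than half of the average size. If in every coordinate the proportion of
starved values is at least `α`, then `|Q| ≤ |Ω| exp (-(3/20) α (number of coordinates))`.
-/

set_option autoImplicit false

open Finset

namespace Pool.Agent.Lib.MP_33f9c4_lc.RK

private lemma starve_prod {Ω : Type} [Fintype Ω] {κ : Type} [Fintype κ] [DecidableEq κ]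
    (X : κ → Type) [∀ k, Fintype (X k)] [∀ k, DecidableEq (X k)] (c : ∀ k, Ω → X k)
    (hbal : ∀ x : ∀ k, X k, (univ.filter (fun ω : Ω => ∀ k, c k ω = x k)).card *
      ∏ k, Fintype.card (X k) = Fintype.card Ω) (g : ∀ k, X k → ℝ)
    (hg : ∀ k, ∑ w, g k w = Fintype.card (X k)) (hne : ∀ k, Fintype.card (X k) ≠ 0) :
    ∑ ω : Ω, ∏ k, g k (c k ω) = Fintype.card Ω := by
  have h1 : ∑ ω : Ω, ∏ k, g k (c k ω) =
      ∑ x : ∀ k, X k, ∑ ω ∈ univ.filter (fun ω : Ω => ∀ k, c k ω = x k), ∏ k, g k (c k ω) := by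
    rw [← Finset.sum_fiberwise_of_maps_to (t := (univ : Finset (∀ k, X k)))
      (g := fun ω k => c k ω) (fun _ _ => mem_univ _)]
    refine Finset.sum_congr rfl fun x _ => ?_
    refine Finset.sum_congr ?_ fun _ _ => rfl
    ext ω
    rw [mem_filter, mem_filter]
    exact and_congr_right fun _ => funext_iff
  have h2 : ∀ x : ∀ k, X k, ∑ ω ∈ univ.filter (fun ω : Ω => ∀ k, c k ω = x k), ∏ k, g k (c k ω) =
      ((Fintype.card Ω : ℝ) / ∏ k, (Fintype.card (X k) : ℝ)) * ∏ k, g k (x k) := by
    intro x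
    have h3 : ∀ ω ∈ univ.filter (fun ω : Ω => ∀ k, c k ω = x k), ∏ k, g k (c k ω) = ∏ k, g k (x k) := by
      intro ω hω
      rw [mem_filter] at hω
      exact Finset.prod_congr rfl fun k _ => by rw [hω.2 k]
    rw [Finset.sum_congr rfl h3, Finset.sum_const, nsmul_eq_mul]
    congr 1
    have h4 : (∏ k, (Fintype.card (X k) : ℝ)) ≠ 0 :=
      Finset.prod_ne_zero_iff.2 fun k _ => by exact_mod_cast hne k
    rw [eq_div_iff h4]
    exact_mod_cast hbal x
  rw [h1]
  simp only [h2]
  rw [← Finset.mul_sum, ← Fintype.piFinset_univ, ← Finset.prod_univ_sum]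
  simp only [hg]
  have h4 : (∏ k, (Fintype.card (X k) : ℝ)) ≠ 0 :=
    Finset.prod_ne_zero_iff.2 fun k _ => by exact_mod_cast hne k
  field_simp

theorem starve {Ω : Type} [Fintype Ω] {κ : Type} [Fintype κ] [DecidableEq κ]
    (X : κ → Type) [∀ k, Fintype (X k)] [∀ k, DecidableEq (X k)] (c : ∀ k, Ω → X k)
    (hbal : ∀ x : ∀ k, X k, (univ.filter (fun ω : Ω => ∀ k, c k ω = x k)).card *
      ∏ k, Fintype.card (X k) = Fintype.card Ω)
    (Q : Finset Ω) (α : ℝ)
    (hst : ∀ k, α * Fintype.card (X k) ≤ ((univ.filter (fun w : X k =>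
      2 * Fintype.card (X k) * (Q.filter (fun ω => c k ω = w)).card < Q.card)).card : ℝ)) :
    (Q.card : ℝ) ≤ Fintype.card Ω * Real.exp (-(3 / 20 * α * Fintype.card κ)) := by
  rcases Q.eq_empty_or_nonempty with hQ | hQ
  · rw [hQ, card_empty, Nat.cast_zero]
    positivity
  have hq : (0 : ℝ) < Q.card := by exact_mod_cast hQ.card_pos
  obtain ⟨ω₀, hω₀⟩ := hQ
  have hne : ∀ k, Fintype.card (X k) ≠ 0 := fun k =>
    (Fintype.card_pos_iff.2 ⟨c k ω₀⟩).ne'
  have hN : ∀ k, (0 : ℝ) < Fintype.card (X k) := fun k => by exact_mod_cast Nat.pos_of_ne_zero (hne k)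
  let S : ∀ k, Finset (X k) := fun k => univ.filter (fun w : X k =>
      2 * Fintype.card (X k) * (Q.filter (fun ω => c k ω = w)).card < Q.card)
  let σ : κ → ℝ := fun k => ((S k).card : ℝ) / Fintype.card (X k)
  have hσ0 : ∀ k, 0 ≤ σ k := fun k => by positivity
  have hσα : ∀ k, α ≤ σ k := by
    intro k
    show α ≤ ((S k).card : ℝ) / Fintype.card (X k)
    rw [le_div_iff₀ (hN k)]
    exact hst k
  -- the part of Q in starved fibres
  have hQS : ∀ k, ((Q.filter (fun ω => c k ω ∈ S k)).card : ℝ) ≤ σ k / 2 * Q.card := by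
    intro k
    have h1 : (Q.filter (fun ω => c k ω ∈ S k)).card = ∑ w ∈ S k, (Q.filter (fun ω => c k ω = w)).card := by
      rw [Finset.card_eq_sum_card_fiberwise (f := fun ω => c k ω) (t := S k)]
      · refine Finset.sum_congr rfl fun w hw => ?_
        congr 1
        ext ω
        simp only [mem_filter]
        constructor
        · rintro ⟨⟨h1, _⟩, h2⟩; exact ⟨h1, h2⟩
        · rintro ⟨h1, h2⟩; exact ⟨⟨h1, by rw [h2]; exact hw⟩, h2⟩
      · intro ω hω
        exact (mem_filter.1 hω).2
    rw [h1]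
    push_cast
    have h2 : ∀ w ∈ S k, ((Q.filter (fun ω => c k ω = w)).card : ℝ) ≤ Q.card / (2 * Fintype.card (X k)) := by
      intro w hw
      have h3 := (mem_filter.1 hw).2
      rw [le_div_iff₀ (by have := hN k; positivity)]
      have h4 : ((2 * Fintype.card (X k) * (Q.filter (fun ω => c k ω = w)).card : ℕ) : ℝ) < Q.card := by
        exact_mod_cast h3
      push_cast at h4
      linarith
    refine (Finset.sum_le_sum h2).trans (le_of_eq ?_)
    rw [Finset.sum_const, nsmul_eq_mul]
    show _ = ((S k).card : ℝ) / Fintype.card (X k) / 2 * Q.card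
    have := (hN k).ne'
    field_simp
  have hσ1 : ∀ k, σ k < 1 := by
    intro k
    have h1 : (S k).card ≤ Fintype.card (X k) := card_le_univ _
    rcases lt_or_eq_of_le h1 with h2 | h2
    · show ((S k).card : ℝ) / Fintype.card (X k) < 1
      rw [div_lt_one (hN k)]
      exact_mod_cast h2
    · exfalso
      have h3 : S k = univ := Finset.eq_univ_of_card _ h2
      have h4 := hQS k
      have h5 : Q.filter (fun ω => c k ω ∈ S k) = Q := by
        rw [h3]; simp
      have h6 : σ k = 1 := by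
        show ((S k).card : ℝ) / Fintype.card (X k) = 1
        rw [h2, div_self (hN k).ne']
      rw [h5, h6] at h4
      linarith
  -- the weights
  let g : ∀ k, X k → ℝ := fun k w => if w ∈ S k then 1 / 2 else (1 - σ k / 2) / (1 - σ k)
  have hgpos : ∀ k w, 0 < g k w := by
    intro k w
    show 0 < if w ∈ S k then (1 / 2 : ℝ) else (1 - σ k / 2) / (1 - σ k)
    have h1 := hσ0 k
    have h2 := hσ1 k
    split_ifs
    · norm_num
    · exact div_pos (by linarith) (by linarith)
  have hgsum : ∀ k, ∑ w, g k w = Fintype.card (X k) := by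
    intro k
    show ∑ w, (if w ∈ S k then (1 / 2 : ℝ) else (1 - σ k / 2) / (1 - σ k)) = _
    rw [Finset.sum_ite, Finset.sum_const, Finset.sum_const, nsmul_eq_mul, nsmul_eq_mul]
    have h1 : (univ.filter (fun w => w ∈ S k)).card = (S k).card := by
      congr 1; ext w; simp
    have h2 : ((univ.filter (fun w => w ∉ S k)).card : ℝ) = Fintype.card (X k) - (S k).card := by
      have h3 : (univ.filter (fun w => w ∉ S k)) = (S k)ᶜ := by ext w; simp
      rw [h3, Finset.card_compl, Nat.cast_sub (card_le_univ _)]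
    rw [h1, h2]
    have h4 : ((S k).card : ℝ) = σ k * Fintype.card (X k) := by
      show _ = ((S k).card : ℝ) / Fintype.card (X k) * Fintype.card (X k)
      have := (hN k).ne'
      field_simp
    rw [h4]
    have h5 : (1 - σ k) ≠ 0 := by have := hσ1 k; linarith
    field_simp
    ring
  have htot := starve_prod X c hbal g hgsum hne
  -- the logarithms
  have hlog : ∀ k, 3 / 20 * α * Q.card ≤ ∑ ω ∈ Q, Real.log (g k (c k ω)) := by
    intro k
    have h0 := hσ0 k
    have h1 := hσ1 k
    set l := Real.log ((1 - σ k / 2) / (1 - σ k)) with hl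
    have hl1 : σ k / 2 / (1 - σ k / 2) ≤ l := by
      have h2 : 0 < (1 - σ k / 2) / (1 - σ k) := div_pos (by linarith) (by linarith)
      have h3 := Real.one_sub_inv_le_log_of_pos h2
      refine le_trans (le_of_eq ?_) h3
      have h4 : (1 - σ k / 2) ≠ 0 := by linarith
      rw [inv_div, eq_sub_iff_add_eq, ← add_div, div_eq_one_iff_eq h4]
      ring
    have hl0 : 0 ≤ l := le_trans (div_nonneg (by linarith) (by linarith)) hl1
    have h2 : ∑ ω ∈ Q, Real.log (g k (c k ω)) =
        ((Q.filter (fun ω => c k ω ∈ S k)).card : ℝ) * Real.log (1 / 2) +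
        ((Q.card : ℝ) - (Q.filter (fun ω => c k ω ∈ S k)).card) * l := by
      have h3 : ∀ ω ∈ Q, Real.log (g k (c k ω)) = if c k ω ∈ S k then Real.log (1 / 2) else l := by
        intro ω _
        show Real.log (if c k ω ∈ S k then (1 / 2 : ℝ) else (1 - σ k / 2) / (1 - σ k)) = _
        split_ifs <;> rfl
      rw [Finset.sum_congr rfl h3, Finset.sum_ite, Finset.sum_const, Finset.sum_const, nsmul_eq_mul,
        nsmul_eq_mul]
      congr 2
      have h4 := Finset.card_filter_add_card_filter_not (s := Q) (p := fun ω => c k ω ∈ S k)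
      have h5 : ((Q.filter (fun ω => c k ω ∈ S k)).card : ℝ) +
        (Q.filter (fun ω => ¬ c k ω ∈ S k)).card = Q.card := by exact_mod_cast h4
      linarith
    rw [h2]
    have h6 : Real.log (1 / 2) = -Real.log 2 := by
      rw [one_div, Real.log_inv]
    have hln := Real.log_two_lt_d9
    have hln0 := Real.log_two_gt_d9
    rw [h6]
    have hq2 := hQS k
    set n := ((Q.filter (fun ω => c k ω ∈ S k)).card : ℝ) with hn
    have h7 : 3 / 20 * α * Q.card ≤ 3 / 20 * σ k * Q.card := by
      have := hσα k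
      nlinarith
    refine h7.trans ?_
    have h8 : n * -Real.log 2 + (Q.card - n) * l = Q.card * l - n * (Real.log 2 + l) := by ring
    rw [h8]
    have h9 : n * (Real.log 2 + l) ≤ σ k / 2 * Q.card * (Real.log 2 + l) :=
      mul_le_mul_of_nonneg_right hq2 (by linarith)
    have h10 : Q.card * l - σ k / 2 * Q.card * (Real.log 2 + l) =
        Q.card * ((1 - σ k / 2) * l - σ k / 2 * Real.log 2) := by ring
    have h11 : σ k / 2 ≤ (1 - σ k / 2) * l := by
      rw [div_le_iff₀ (by linarith)] at hl1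
      linarith
    have h12 : 3 / 20 * σ k ≤ (1 - σ k / 2) * l - σ k / 2 * Real.log 2 := by nlinarith
    have h13 := mul_le_mul_of_nonneg_left h12 hq.le
    nlinarith
  -- conclusion by convexity
  set m : ℝ := (∑ ω ∈ Q, ∑ k, Real.log (g k (c k ω))) / Q.card with hm
  have hm1 : 3 / 20 * α * Fintype.card κ ≤ m := by
    rw [hm, le_div_iff₀ hq, Finset.sum_comm]
    have h1 := Finset.sum_le_sum (fun k (_ : k ∈ (univ : Finset κ)) => hlog k)
    rw [Finset.sum_const, Finset.card_univ, nsmul_eq_mul] at h1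
    linarith
  have h1 : (Q.card : ℝ) * Real.exp m ≤ ∑ ω ∈ Q, ∏ k, g k (c k ω) := by
    have h2 : ∀ ω ∈ Q, Real.exp m * (1 + (∑ k, Real.log (g k (c k ω)) - m)) ≤ ∏ k, g k (c k ω) := by
      intro ω _
      have h3 : ∏ k, g k (c k ω) = Real.exp m * Real.exp (∑ k, Real.log (g k (c k ω)) - m) := by
        rw [← Real.exp_add, add_sub_cancel, Real.exp_sum]
        exact Finset.prod_congr rfl fun k _ => (Real.exp_log (hgpos k _)).symm
      rw [h3]
      have := Real.add_one_le_exp (∑ k, Real.log (g k (c k ω)) - m)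
      exact mul_le_mul_of_nonneg_left (by linarith) (Real.exp_pos _).le
    refine le_trans (le_of_eq ?_) (Finset.sum_le_sum h2)
    rw [← Finset.mul_sum, Finset.sum_add_distrib, Finset.sum_sub_distrib, Finset.sum_const,
      Finset.sum_const, nsmul_eq_mul, nsmul_eq_mul, mul_one]
    have h4 : ∑ ω ∈ Q, ∑ k, Real.log (g k (c k ω)) = m * Q.card := by
      rw [hm, div_mul_cancel₀ _ hq.ne']
    rw [h4]
    ring
  have h2 : ∑ ω ∈ Q, ∏ k, g k (c k ω) ≤ ∑ ω : Ω, ∏ k, g k (c k ω) :=
    Finset.sum_le_sum_of_subset_of_nonneg (subset_univ _)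
      (fun ω _ _ => Finset.prod_nonneg fun k _ => (hgpos k _).le)
  rw [htot] at h2
  rw [Real.exp_neg, ← div_eq_mul_inv, le_div_iff₀ (Real.exp_pos _)]
  refine le_trans ?_ (h1.trans h2)
  exact mul_le_mul_of_nonneg_left (Real.exp_le_exp.2 hm1) hq.le

end Pool.Agent.Lib.MP_33f9c4_lc.RK
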